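import Pool.Agent.MWLE.StmtsA

/-!
# MWLE, row RGX: rigidity of `x`
-/

set_option autoImplicit false

namespace Pool.Agent.MWLE.H60

open Pool.Agent.Helper14_MV Pool.Agent.Helper2_MV Pool.Agent.MWK
open Pool.Agent.MWK (pre Gw)
open Pool.Agent.MWF (Ap gaml dbl)
open Pool.Agent.MWGN (nn Gz E0 P0 A0 Tau gh)
open Pool.Agent.MWLE

/-- no simple letter is in front of the first one -/
theorem nosep {σ τ : List ℕ} {m : ℕ} {W : List ℕ} (hs : Sg σ τ m) (hf : Fc σ m W) :
    ∀ k ≤ 2 * m + 2, sep k ∉ pre W (t1 σ) := by
  intro k hk hm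
  have h0 : 0 ∈ σ := (hs.me 0).2 (by omega)
  obtain ⟨h, σ', rfl⟩ : ∃ h σ', σ = h :: σ' := by
    cases σ with
    | nil => simp at h0
    | cons h σ' => exact ⟨h, σ', rfl⟩
  have ht : t1 (h :: σ') = sep h := rfl
  rw [ht] at hm
  by_cases hkh : k = h
  · subst hkh
    exact not_mem_pre W (sep k) hm
  · have hh : h ≤ 2 * m + 2 := (hs.me h).1 (by simp)
    have h1 : h ∈ pre (h :: σ') k := by
      unfold pre
      rw [List.takeWhile_cons_of_pos (by simpa using fun e => hkh e.symm)]
      simp
    have h2 := hf.ss h k hh hk h1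
    have h3 : sep h ∈ pre W (sep k) := mem_pre_of_count h2
    exact pre_asymm h3 hm

/-- a letter `q` with two `x` in front of it is behind the second `x` -/
theorem behind {W P R : List ℕ} {x q : ℕ} (hW : W = P ++ x :: R) (h1 : P.count x = 1)
    (h : 2 ≤ nn W x q) : q ∉ P := by
  intro hq
  unfold nn at h
  rw [hW, pre_append_mem hq] at h
  have := count_pre_le P x q
  omega

theorem split2 {W : List ℕ} {x : ℕ} (h : 2 ≤ W.count x) :
    ∃ A v R : List ℕ, W = A ++ x :: (v ++ x :: R) ∧ x ∉ A ∧ x ∉ v ∧ A = pre W x := by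
  obtain ⟨B, hB⟩ := mem_split (w := W) (y := x) (List.count_pos_iff.1 (by omega))
  have hB1 : x ∈ B := by
    by_contra hc
    rw [hB, List.count_append, List.count_cons_self, List.count_eq_zero.2 hc,
      List.count_eq_zero.2 (not_mem_pre W x)] at h
    omega
  obtain ⟨R, hR⟩ := mem_split hB1
  refine ⟨pre W x, pre B x, R, ?_, not_mem_pre W x, not_mem_pre B x, rfl⟩
  rw [← hR]
  exact hB

theorem names_nodup (m : ℕ) : (0 :: ((List.range (m + 1)).map (fun i => sep (i + (m + 2))) ++
    ((List.range (m + 1)).map (fun i => pin (i + (m + 2))) ++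
      (List.range (m + 1)).map (fun i => con (i + (m + 1)))))).Nodup := by
  refine List.nodup_cons.2 ⟨?_, List.nodup_append.2 ⟨?_, List.nodup_append.2 ⟨?_, ?_, ?_⟩, ?_⟩⟩
  · simp [sep, pin, con]
  · refine List.Nodup.map_on ?_ List.nodup_range
    intro i _ j _ h
    simp only [sep] at h
    omega
  · refine List.Nodup.map_on ?_ List.nodup_range
    intro i _ j _ h
    simp only [pin] at h
    omega
  · refine List.Nodup.map_on ?_ List.nodup_range
    intro i _ j _ h
    simp only [con] at h
    omega
  · intro a ha b hb h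
    rw [List.mem_map] at ha hb
    obtain ⟨i, _, rfl⟩ := ha
    obtain ⟨j, _, rfl⟩ := hb
    simp only [pin, con] at h
    omega
  · intro a ha b hb h
    rw [List.mem_map] at ha
    rw [List.mem_append, List.mem_map, List.mem_map] at hb
    obtain ⟨i, _, rfl⟩ := ha
    rcases hb with ⟨j, _, rfl⟩ | ⟨j, _, rfl⟩
    · simp only [pin, sep] at h
      omega
    · simp only [sep, con] at h
      omega

theorem rgx (rig : RigStmt) (cpx : CpxStmt) (pst : PstStmt) : RgxStmt := by
  intro β hG σ τ m hτ hs hB W hK hf h2 ht hp1 hp2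
  obtain ⟨A, v, R, hW, hA, hv, hA1⟩ := split2 h2
  -- facts on positions
  have hW2 : W = (A ++ 0 :: v) ++ 0 :: R := by
    rw [hW]
    simp
  have hP1 : (A ++ 0 :: v).count 0 = 1 := by
    rw [List.count_append, List.count_cons_self, List.count_eq_zero.2 hA,
      List.count_eq_zero.2 hv]
  have ht1 : t1 σ ∉ A ++ 0 :: v := behind hW2 hP1 (by omega)
  have hpz : pin (2 * m + 2) ∉ A ++ 0 :: v := behind hW2 hP1 hp2
  have hpre : pre W (t1 σ) = (A ++ 0 :: v) ++ pre (0 :: R) (t1 σ) := by
    conv_lhs => rw [hW2]
    exact pre_append ht1 _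
  have hsep : ∀ k ≤ 2 * m + 2, sep k ∉ A ++ 0 :: v := by
    intro k hk hm
    refine nosep hs hf k hk ?_
    rw [hpre]
    exact List.mem_append_left _ hm
  have hpin : ∀ k ≤ 2 * m + 2, (A ++ 0 :: v).count (pin k) ≤ 1 := by
    intro k hk
    have h := hf.pt k hk
    unfold nn at h
    rw [hpre, List.count_append] at h
    omega
  have hmem : ∀ c ∈ A ++ 0 :: v, c ∈ W := by
    intro c hc
    rw [hW2]
    exact List.mem_append_left _ hc
  -- the letters of `A`
  have hAc : ∀ c ∈ A.filter (Fx m), c % 5 = 4 := by
    intro c hc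
    rw [List.mem_filter] at hc
    obtain ⟨hcA, hcF⟩ := hc
    simp only [Fx, decide_eq_true_eq] at hcF
    rcases hf.al c (hmem c (List.mem_append_left _ hcA)) with h | h | h | ⟨k, hk, h | h⟩
    · rw [h] at hcA
      exact absurd hcA hA
    · rw [h] at hcF
      simp [con, pin, sep] at hcF
    · exact h
    · exfalso
      subst h
      have hk2 : m + 2 ≤ k := by
        simp only [pin, con, sep] at hcF
        omega
      have h1 : pin (m + 1) ∈ pre W (pin k) := hf.po (m + 1) k (by omega) hk
      have h3 : 0 ∈ pre W (pin (m + 1)) := by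
        apply List.count_pos_iff.1
        unfold nn at hp1
        omega
      have h4 : 0 ∈ pre W (pin k) := pre_trans h3 h1
      rw [hA1] at hcA
      exact pre_asymm h4 hcA
    · exfalso
      subst h
      exact hsep k hk (List.mem_append_left _ hcA)
  -- the letters of `v`
  have hvc : ∀ c ∈ v.filter (Fx m), c % 5 = 4 ∨ ∃ i < m, c = pin (m + 2 + i) := by
    intro c hc
    rw [List.mem_filter] at hc
    obtain ⟨hcv, hcF⟩ := hc
    simp only [Fx, decide_eq_true_eq] at hcF
    have hcP : c ∈ A ++ 0 :: v := by
      rw [List.mem_append, List.mem_cons]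
      exact Or.inr (Or.inr hcv)
    rcases hf.al c (hmem c hcP) with h | h | h | ⟨k, hk, h | h⟩
    · rw [h] at hcv
      exact absurd hcv hv
    · rw [h] at hcF
      simp [con, pin, sep] at hcF
    · exact Or.inl h
    · right
      subst h
      have hk2 : m + 2 ≤ k := by
        simp only [pin, con, sep] at hcF
        omega
      have hk3 : k ≠ 2 * m + 2 := by
        rintro rfl
        exact hpz hcP
      refine ⟨k - (m + 2), by omega, ?_⟩
      rw [show m + 2 + (k - (m + 2)) = k by omega]
    · exfalso
      subst h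
      exact hsep k hk hcP
  -- the filtered word
  have hF0 : Fx m 0 = true := by simp [Fx]
  have hWF : W.filter (Fx m) =
      A.filter (Fx m) ++ 0 :: (v.filter (Fx m) ++ 0 :: R.filter (Fx m)) := by
    rw [hW, List.filter_append, List.filter_cons_of_pos hF0, List.filter_append,
      List.filter_cons_of_pos hF0]
  have hps := (pst 1 W le_rfl).2.2.2.2.2 (Fx m)
  have hRR : RR β ((W.filter (Fx m)).flatMap (psi 1)) (0 :: (lw4 (fun i => pin (i + (m + 2)))
      (fun i => con (i + (m + 1))) (m + 1) ++ (0 :: tll (fun i => sep (i + (m + 2)))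
        (fun i => pin (i + (m + 2))) τ))) := by
    have h := RR.filter (Fx m) (show RR β _ _ from hK)
    rw [hps, cpx σ τ m hs false] at h
    exact h
  have hdA : (A.filter (Fx m)).flatMap (psi 1) = MWF.dbl (A.filter (Fx m)) := by
    unfold MWF.dbl
    apply List.flatMap_congr
    intro c hc
    have h := hAc c hc
    have h1 : c ≠ 1 := by omega
    simp [psi, h, h1]
  have hdv : (v.filter (Fx m)).flatMap (psi 1) =
      dq (fun c => decide (c % 5 ≠ 4)) (v.filter (Fx m)) := by
    unfold dq
    apply List.flatMap_congr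
    intro c hc
    rcases hvc c hc with h | ⟨i, _, h⟩
    · have h1 : c ≠ 1 := by omega
      simp [psi, h, h1]
    · have h1 : c ≠ 1 := by
        rw [h]
        simp only [pin]
        omega
      have h2 : ¬ (c % 5 = 4) := by
        rw [h]
        simp only [pin]
        omega
      simp [psi, h1, h2]
  have h00 : psi 1 0 = [0] := by simp [psi]
  rw [hWF, List.flatMap_append, List.flatMap_cons, List.flatMap_append, List.flatMap_cons, hdA,
    hdv, h00] at hRR
  -- RIG
  refine rig β hG m τ hτ hB 0 (fun i => sep (i + (m + 2))) (fun i => pin (i + (m + 2)))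
    (fun i => con (i + (m + 1))) (names_nodup m) (fun c => decide (c % 5 ≠ 4))
    (A.filter (Fx m)) (v.filter (Fx m)) ((R.filter (Fx m)).flatMap (psi 1)) ?_ ?_ ?_ hRR
  · have hnd : ((v.filter (Fx m)).filter (fun c => decide (c % 5 ≠ 4))).Nodup := by
      rw [List.nodup_iff_count_le_one]
      intro c
      by_cases hc : c ∈ (v.filter (Fx m)).filter (fun c => decide (c % 5 ≠ 4))
      · rw [List.mem_filter, decide_eq_true_eq] at hc
        rcases hvc c hc.1 with h | ⟨i, hi, h⟩
        · exact absurd h hc.2
        · subst h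
          have h1 := hpin (m + 2 + i) (by omega)
          rw [List.count_append, List.count_cons] at h1
          have h2 : ((v.filter (Fx m)).filter (fun c => decide (c % 5 ≠ 4))).count
              (pin (m + 2 + i)) ≤ v.count (pin (m + 2 + i)) :=
            ((List.filter_sublist).trans List.filter_sublist).count_le _
          omega
      · rw [List.count_eq_zero.2 hc]
        omega
    have hsub : (v.filter (Fx m)).filter (fun c => decide (c % 5 ≠ 4)) ⊆
        (List.range m).map (fun i => pin (m + 2 + i)) := by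
      intro c hc
      rw [List.mem_filter, decide_eq_true_eq] at hc
      rcases hvc c hc.1 with h | ⟨i, hi, h⟩
      · exact absurd h hc.2
      · exact List.mem_map.2 ⟨i, List.mem_range.2 hi, h.symm⟩
    have h3 := (List.subperm_of_subset hnd hsub).length_le
    simpa using h3
  · rw [List.nodup_iff_count_le_one]
    intro c
    by_cases hc : c ∈ (v.filter (Fx m)).filter (fun c => decide (c % 5 ≠ 4))
    · rw [List.mem_filter, decide_eq_true_eq] at hc
      rcases hvc c hc.1 with h | ⟨i, hi, h⟩
      · exact absurd h hc.2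
      · subst h
        have h1 := hpin (m + 2 + i) (by omega)
        rw [List.count_append, List.count_cons] at h1
        have h2 : ((v.filter (Fx m)).filter (fun c => decide (c % 5 ≠ 4))).count
            (pin (m + 2 + i)) ≤ v.count (pin (m + 2 + i)) :=
          ((List.filter_sublist).trans List.filter_sublist).count_le _
        omega
    · rw [List.count_eq_zero.2 hc]
      omega
  · intro c hc hQ
    rw [decide_eq_true_eq] at hQ
    rcases hvc c hc with h | ⟨i, hi, h⟩
    · exact absurd h hQ
    · subst h
      have h1 := hpin (m + 2 + i) (by omega)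
      have h2 := hf.p2 (m + 2 + i) (by omega)
      have h0 : pin (m + 2 + i) ≠ 0 := by
        simp only [pin]
        omega
      have h01 : pin (m + 2 + i) ≠ 1 := by
        simp only [pin]
        omega
      rw [hW2, List.count_append, List.count_cons_of_ne (Ne.symm h0)] at h2
      have h3 : pin (m + 2 + i) ∈ R := List.count_pos_iff.1 (by omega)
      have h4 : pin (m + 2 + i) ∈ R.filter (Fx m) :=
        List.mem_filter.2 ⟨h3, (List.mem_filter.1 hc).2⟩
      refine List.mem_flatMap.2 ⟨_, h4, ?_⟩
      simp [psi, h01, hQ]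

end Pool.Agent.MWLE.H60
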